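import Pool.Agent.Lib_helper13.RB.B5b

/-!
# The game lemma (Pawlikowski)
-/

set_option linter.unusedSectionVars false
set_option linter.unusedVariables false

namespace Pool.Agent.Lib_helper27

universe u v w v'

open Fml

namespace ST

variable {M : Type u} [SetStr M] [ZFC M]

/-- B5: the game lemma (Pawlikowski). `D ν j U` means that at the node `ν` the move `j` may be
accompanied by the open set `U`. -/
theorem game_proof {T X : M} (hT : InterCl T) (hX : Roth T X) {D : M → M → M → Prop}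
    (hD : Dbl M (fun z : (M × M) × M => D z.1.1 z.1.2 z.2))
    (hmono : ∀ ν j U U', D ν j U → U' ∈ T → (∀ x, x ∈ U' → x ∈ U) → D ν j U')
    (hcov : ∀ ν, ν ∈ (omega : M) → ∀ x, x ∈ X → ∃ j, j ∈ (omega : M) ∧ ∃ U, U ∈ T ∧ x ∈ U ∧ D ν j U)
    {τ : M → M → M} (hτ : Dbl M (fun z : M × M => τ z.1 z.2))
    (hτω : ∀ ν j, ν ∈ (omega : M) → j ∈ (omega : M) → τ ν j ∈ (omega : M))
    {r : M} (hr : r ∈ (omega : M)) :
    ∃ f s U : M → M, Dbl M f ∧ Dbl M s ∧ Dbl M U ∧ s empty = r ∧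
      (∀ l, l ∈ (omega : M) → f l ∈ (omega : M) ∧ s l ∈ (omega : M) ∧ s (succ l) = τ (s l) (f l)) ∧
      ∀ x, x ∈ X → ∀ k, k ∈ (omega : M) → ∃ l, l ∈ (omega : M) ∧ ¬ l ∈ k ∧ x ∈ U l ∧
        D (s l) (f l) (U l) := by
  by_cases hne : ∃ x, x ∈ X
  swap
  · obtain ⟨s, hs, hs0, hs1⟩ := omega_rec (H := fun _ y => τ y empty) (by fun_prop) r
    refine ⟨fun _ => empty, s, fun _ => empty, by fun_prop, hs, by fun_prop, hs0, ?_,
      fun x hx => (hne ⟨x, hx⟩).elim⟩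
    intro l hl
    refine ⟨empty_mem_omega, ?_, hs1 l hl⟩
    refine omega_induction (Φ := fun l => s l ∈ (omega : M)) (by fun_prop) ?_ ?_ hl
    · rw [hs0]; exact hr
    · intro l hl ih
      rw [hs1 l hl]
      exact hτω _ _ ih empty_mem_omega
  have hDd : ∀ {Γ : Type u} [Ctx M Γ] {f1 f2 f3 : Γ → M}, Dbl M f1 → Dbl M f2 → Dbl M f3 →
      Dbl M (fun γ => D (f1 γ) (f2 γ) (f3 γ)) := fun h1 h2 h3 =>
    Dbl.comp (f := fun γ => ((_, _), _)) (g := fun z : (M × M) × M => D z.1.1 z.1.2 z.2)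
      ((h1.mk h2).mk h3) hD
  -- the function `θ`
  let θ : M → M := fun a => b5_mu (fun w => r ∈ w ∧ ∀ ν, ν ∈ a → ∀ j, j ∈ a → τ ν j ∈ w)
  have hθ : Dbl M θ := b5_dbl_mu (Φ := fun a w => r ∈ w ∧ ∀ ν, ν ∈ a → ∀ j, j ∈ a → τ ν j ∈ w)
    (by fun_prop)
  have hθex : ∀ a, a ∈ (omega : M) → ∃ w, w ∈ (omega : M) ∧ r ∈ w ∧
      ∀ ν, ν ∈ a → ∀ j, j ∈ a → τ ν j ∈ w := by
    intro a ha
    obtain ⟨β, hβ, hβ'⟩ := choice_fun (M := M) (a := a) (b := omega)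
      (R := fun ν b => ∀ j, j ∈ a → τ ν j ∈ b) (by fun_prop) (by
        intro ν hν
        exact nat_bdd (f := fun j => τ ν j) (by fun_prop) ha fun j hj =>
          hτω _ _ (mem_omega_trans ha hν) (mem_omega_trans ha hj))
    obtain ⟨b, hb, hb'⟩ := nat_bdd hβ ha fun i hi => (hβ' i hi).1
    refine ⟨union b (succ r), b5_union hb (succ_mem_omega hr),
      mem_union.2 (Or.inr (mem_succ.2 (Or.inr rfl))), fun ν hν j hj => mem_union.2 (Or.inl ?_)⟩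
    exact nat_trans hb (hb' ν hν) ((hβ' ν hν).2 j hj)
  have hθ1 : ∀ a, a ∈ (omega : M) → θ a ∈ (omega : M) ∧ (r ∈ θ a ∧
      ∀ ν, ν ∈ a → ∀ j, j ∈ a → τ ν j ∈ θ a) ∧
      ∀ k, k ∈ θ a → ¬ (r ∈ k ∧ ∀ ν, ν ∈ a → ∀ j, j ∈ a → τ ν j ∈ k) := by
    intro a ha
    obtain ⟨w, hw, hw'⟩ := hθex a ha
    exact b5_mu_spec (Φ := fun w => r ∈ w ∧ ∀ ν, ν ∈ a → ∀ j, j ∈ a → τ ν j ∈ w)
      (by fun_prop) hw hw'
  have hθmono : ∀ a a', a ∈ (omega : M) → a' ∈ (omega : M) → (∀ x, x ∈ a → x ∈ a') →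
      ∀ x, x ∈ θ a → x ∈ θ a' := by
    intro a a' ha ha' haa'
    refine b5_le_of (hθ1 a ha).1 (hθ1 a' ha').1 fun h => ?_
    exact (hθ1 a ha).2.2 _ h ⟨(hθ1 a' ha').2.1.1, fun ν hν j hj =>
      (hθ1 a' ha').2.1.2 ν (haa' _ hν) j (haa' _ hj)⟩
  -- the relation `E`
  have hEd : Dbl M (fun z : (M × M) × M => ∀ ν, ν ∈ θ z.1.1 → ∃ j, j ∈ z.1.2 ∧ D ν j z.2) := by
    have : Dbl M (fun w : (((M × M) × M) × M) × M => D w.1.2 w.2 w.1.1.2) :=
      hDd (by fun_prop) (by fun_prop) (by fun_prop)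
    fun_prop
  obtain ⟨z, hz, hz1, hz2⟩ := b5_growth (E := fun a b U => ∀ ν, ν ∈ θ a → ∃ j, j ∈ b ∧ D ν j U)
    hT hX hne hEd
    (fun a b U U' h hU' hUU' ν hν => by
      obtain ⟨j, hj, hj'⟩ := h ν hν
      exact ⟨j, hj, hmono _ _ _ _ hj' hU' hUU'⟩)
    (fun a a' b U haa' ha' ha h ν hν => h ν (hθmono a a' ha ha' haa' ν hν))
    (fun a b b' U hbb' h ν hν => by
      obtain ⟨j, hj, hj'⟩ := h ν hν
      exact ⟨j, hbb' j hj, hj'⟩)
    (by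
      intro x hx a ha
      have hθa := (hθ1 a ha).1
      obtain ⟨_, _, U₀, hU₀, hxU₀, _⟩ := hcov empty empty_mem_omega x hx
      obtain ⟨O, hO, hO'⟩ := choice_fun (M := M) (a := θ a) (b := T)
        (R := fun ν U => x ∈ U ∧ ∃ j, j ∈ (omega : M) ∧ D ν j U) (by
          have : Dbl M (fun w : (M × M) × M => D w.1.1 w.2 w.1.2) :=
            hDd (by fun_prop) (by fun_prop) (by fun_prop)
          fun_prop) (by
          intro ν hν
          obtain ⟨j, hj, U, hU, hxU, hDU⟩ := hcov ν (mem_omega_trans hθa hν) x hx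
          exact ⟨U, hU, hxU, j, hj, hDU⟩)
      obtain ⟨β, hβ, hβ'⟩ := choice_fun (M := M) (a := θ a) (b := omega)
        (R := fun ν j => D ν j (O ν)) (by
          exact hDd (by fun_prop) (by fun_prop) (by fun_prop)) (fun ν hν => (hO' ν hν).2.2)
      obtain ⟨b, hb, hb'⟩ := nat_bdd hβ hθa fun i hi => (hβ' i hi).1
      obtain ⟨U, hU, hxU, hU'⟩ := fin_inter hT hO hU₀ hxU₀ hθa fun i hi =>
        ⟨(hO' i hi).1, (hO' i hi).2.1⟩
      exact ⟨b, hb, U, hU, hxU, fun ν hν => ⟨β ν, hb' ν hν,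
        hmono _ _ _ _ (hβ' ν hν).2 hU (hU' ν hν)⟩⟩)
    hθ (fun a ha => (hθ1 a ha).1)
  -- the open sets
  have hQd : Dbl M (fun w : M × M => ∀ ν, ν ∈ θ (z w.1) → ∃ j, j ∈ z (succ w.1) ∧ D ν j w.2) := by
    have : Dbl M (fun w : ((M × M) × M) × M => D w.1.2 w.2 w.1.1.2) :=
      hDd (by fun_prop) (by fun_prop) (by fun_prop)
    fun_prop
  obtain ⟨g, hg, hg1⟩ := b5_partial (Q := fun l U => ∀ ν, ν ∈ θ (z l) → ∃ j, j ∈ z (succ l) ∧
    D ν j U) hT hX hne hQd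
    (fun l U U' h hU' hUU' ν hν => by
      obtain ⟨j, hj, hj'⟩ := h ν hν
      exact ⟨j, hj, hmono _ _ _ _ hj' hU' hUU'⟩)
    (fun x hx k hk => hz2 x hx k hk)
  -- the moves
  let f' : M → M → M := fun l ν => b5_mu (fun j => (j ∈ z (succ l) ∧ D ν j (g l)) ∨
    ((¬ ∃ i, i ∈ z (succ l) ∧ D ν i (g l)) ∧ j = empty))
  have hfd : Dbl M (fun w : M × M => f' w.1 w.2) := by
    refine b5_dbl_mu (Φ := fun (w : M × M) j => (j ∈ z (succ w.1) ∧ D w.2 j (g w.1)) ∨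
      ((¬ ∃ i, i ∈ z (succ w.1) ∧ D w.2 i (g w.1)) ∧ j = empty)) ?_
    have h1 : Dbl M (fun w : (M × M) × M => D w.1.2 w.2 (g w.1.1)) :=
      hDd (by fun_prop) (by fun_prop) (by fun_prop)
    have h2 : Dbl M (fun w : ((M × M) × M) × M => D w.1.1.2 w.2 (g w.1.1.1)) :=
      hDd (by fun_prop) (by fun_prop) (by fun_prop)
    fun_prop
  have hf1 : ∀ l, l ∈ (omega : M) → ∀ ν, f' l ν ∈ z (succ l) ∧
      ((∃ i, i ∈ z (succ l) ∧ D ν i (g l)) → D ν (f' l ν) (g l)) := by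
    intro l hl ν
    have hzl := (hz1 _ (succ_mem_omega hl)).1
    have hd : Dbl M (fun j => (j ∈ z (succ l) ∧ D ν j (g l)) ∨
        ((¬ ∃ i, i ∈ z (succ l) ∧ D ν i (g l)) ∧ j = empty)) := by
      have h1 : Dbl M (fun w : M => D ν w (g l)) :=
        hDd (by fun_prop) (by fun_prop) (by fun_prop)
      fun_prop
    have h0 : (empty : M) ∈ z (succ l) :=
      b5_zero_mem hzl ((hz1 l hl).2 _ (hθ1 _ (hz1 l hl).1).2.1.1)
    by_cases hex : ∃ i, i ∈ z (succ l) ∧ D ν i (g l)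
    · obtain ⟨i, hi, hi'⟩ := hex
      have := b5_mu_spec hd (mem_omega_trans hzl hi) (Or.inl ⟨hi, hi'⟩)
      rcases this.2.1 with h1 | h1
      · exact ⟨h1.1, fun _ => h1.2⟩
      · exact (h1.1 ⟨i, hi, hi'⟩).elim
    · have := b5_mu_spec hd empty_mem_omega (Or.inr ⟨hex, rfl⟩)
      rcases this.2.1 with h1 | h1
      · exact ⟨h1.1, fun _ => h1.2⟩
      · refine ⟨?_, fun h => (hex h).elim⟩
        have h2 : f' l ν = empty := h1.2
        rw [h2]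
        exact h0
  obtain ⟨s, hs, hs0, hs1⟩ := omega_rec (H := fun l y => τ y (f' l y)) (by fun_prop) r
  have hsθ : ∀ l, l ∈ (omega : M) → s l ∈ θ (z l) := by
    intro l hl
    refine omega_induction (Φ := fun l => s l ∈ θ (z l)) (by fun_prop) ?_ ?_ hl
    · rw [hs0]
      exact (hθ1 _ (hz1 _ empty_mem_omega).1).2.1.1
    · intro l hl ih
      rw [hs1 l hl]
      exact (hθ1 _ (hz1 _ (succ_mem_omega hl)).1).2.1.2 _ ((hz1 l hl).2 _ ih) _ (hf1 l hl _).1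
  refine ⟨fun l => f' l (s l), s, g, by fun_prop, hs, hg, hs0, ?_, ?_⟩
  · intro l hl
    exact ⟨mem_omega_trans (hz1 _ (succ_mem_omega hl)).1 (hf1 l hl _).1,
      mem_omega_trans (hθ1 _ (hz1 l hl).1).1 (hsθ l hl), hs1 l hl⟩
  · intro x hx k hk
    obtain ⟨l, hl, hlk, hxl, hQ⟩ := hg1 x hx k hk
    exact ⟨l, hl, hlk, hxl, (hf1 l hl _).2 (hQ _ (hsθ l hl))⟩

end ST

end Pool.Agent.Lib_helper27
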