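import Pool.Agent.Lib_helper27.R.Top

/-!
# The game lemma, part 1: arithmetic of `ω` and infinitely often selections
-/

set_option linter.unusedSectionVars false
set_option linter.unusedVariables false

namespace Pool.Agent.Lib_helper27

universe u v w v'

open Fml

namespace ST

variable {M : Type u} [SetStr M] [ZFC M]

/-! ### Pigeonhole -/

theorem b5_not_inj_succ {n : M} (hn : n ∈ (omega : M)) : ¬ Inj (succ n) n := by
  classical
  refine omega_induction (Φ := fun n => ¬ Inj (succ n) n) (by fun_prop) ?_ ?_ hn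
  · intro h
    obtain ⟨φ, _, h1, _⟩ := h.exists_fun
    exact not_mem_empty _ (h1 empty (mem_succ.2 (Or.inr rfl)))
  · intro n hn ih h
    obtain ⟨φ, hφ, h1, h2⟩ := h.exists_fun
    have hsn : succ n ∈ succ (succ n) := mem_succ.2 (Or.inr rfl)
    have hin : ∀ j, j ∈ succ n → j ∈ succ (succ n) := fun j hj => mem_succ.2 (Or.inl hj)
    have hne : ∀ j, j ∈ succ n → j ≠ succ n := by
      rintro j hj rfl
      exact mem_irrefl _ hj
    refine ih (Inj.of_fun (φ := fun j => if φ j = n then φ (succ n) else φ j)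
      (Dbl_ite (by fun_prop) (by fun_prop) (by fun_prop)) ?_ ?_)
    · intro j hj
      by_cases hjn : φ j = n
      · rw [if_pos hjn]
        rcases mem_succ.1 (h1 _ hsn) with h3 | h3
        · exact h3
        · exact (hne j hj (h2 j (hin j hj) _ hsn (hjn.trans h3.symm))).elim
      · rw [if_neg hjn]
        rcases mem_succ.1 (h1 _ (hin j hj)) with h3 | h3
        · exact h3
        · exact (hjn h3).elim
    · intro j hj j' hj' he
      by_cases hjn : φ j = n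
      · by_cases hjn' : φ j' = n
        · exact h2 j (hin j hj) j' (hin j' hj') (hjn.trans hjn'.symm)
        · rw [if_pos hjn, if_neg hjn'] at he
          exact (hne j' hj' (h2 _ hsn j' (hin j' hj') he).symm).elim
      · by_cases hjn' : φ j' = n
        · rw [if_neg hjn, if_pos hjn'] at he
          exact (hne j hj (h2 j (hin j hj) _ hsn he)).elim
        · rw [if_neg hjn, if_neg hjn'] at he
          exact h2 j (hin j hj) j' (hin j' hj') he

/-! ### Order on `ω` -/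

theorem b5_le_or {a b : M} (ha : a ∈ (omega : M)) (hb : b ∈ (omega : M)) :
    (∀ x, x ∈ a → x ∈ b) ∨ b ∈ a := by
  rcases nat_tri ha hb with h | h | h
  · exact Or.inl fun x hx => nat_trans hb h hx
  · subst h
    exact Or.inl fun x hx => hx
  · exact Or.inr h

theorem b5_le_of {a b : M} (ha : a ∈ (omega : M)) (hb : b ∈ (omega : M)) (h : ¬ b ∈ a) :
    ∀ x, x ∈ a → x ∈ b := (b5_le_or ha hb).resolve_right h

theorem b5_not_mem {a b : M} (h : ∀ x, x ∈ a → x ∈ b) : ¬ b ∈ a := fun h' => mem_irrefl _ (h _ h')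

theorem b5_union {a b : M} (ha : a ∈ (omega : M)) (hb : b ∈ (omega : M)) :
    union a b ∈ (omega : M) := by
  rcases b5_le_or ha hb with h | h
  · have : union a b = b := ext fun z => by
      rw [mem_union]
      exact ⟨fun h' => h'.elim (h z) id, Or.inr⟩
    rw [this]; exact hb
  · have : union a b = a := ext fun z => by
      rw [mem_union]
      exact ⟨fun h' => h'.elim id fun h'' => nat_trans ha h h'', Or.inl⟩
    rw [this]; exact ha

theorem b5_zero_mem {n x : M} (hn : n ∈ (omega : M)) (hx : x ∈ n) : (empty : M) ∈ n := by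
  rcases nat_tri empty_mem_omega hn with h | h | h
  · exact h
  · subst h
    exact (not_mem_empty x hx).elim
  · exact (not_mem_empty n h).elim

/-- induction starting from `k` -/
theorem b5_ind_from {Φ : M → Prop} (hΦ : Dbl M Φ) {k : M} (hk : k ∈ (omega : M)) (h0 : Φ k)
    (h1 : ∀ m, m ∈ (omega : M) → ¬ m ∈ k → Φ m → Φ (succ m)) :
    ∀ n, n ∈ (omega : M) → ¬ n ∈ k → Φ n := by
  intro n hn
  refine omega_induction (Φ := fun n => ¬ n ∈ k → Φ n) (by fun_prop) ?_ ?_ hn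
  · intro h
    rcases nat_cases hk with rfl | ⟨m, hm, rfl⟩
    · exact h0
    · exact (h (b5_zero_mem (succ_mem_omega hm) (mem_succ.2 (Or.inr rfl)))).elim
  · intro n hn ih h
    rcases nat_tri (succ_mem_omega hn) hk with h3 | h3 | h3
    · exact (h h3).elim
    · rw [h3]; exact h0
    · have hnk : ¬ n ∈ k := by
        intro h4
        rcases mem_succ.1 h3 with h5 | h5
        · exact mem_asymm h4 h5
        · exact mem_irrefl _ (h5 ▸ h4)
      exact h1 n hn hnk (ih hnk)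

/-- the least number with a given property -/
noncomputable def b5_mu (Φ : M → Prop) : M :=
  iota (fun n => (n ∈ (omega : M) ∧ Φ n) ∧ ∀ k, k ∈ n → ¬ Φ k)

theorem b5_mu_spec {Φ : M → Prop} (hΦ : Dbl M Φ) {n : M} (hn : n ∈ (omega : M)) (h : Φ n) :
    b5_mu Φ ∈ (omega : M) ∧ Φ (b5_mu Φ) ∧ ∀ k, k ∈ b5_mu Φ → ¬ Φ k := by
  obtain ⟨m, hm, h1, h2⟩ := nat_least hΦ hn h
  have := iota_spec (D := fun n => (n ∈ (omega : M) ∧ Φ n) ∧ ∀ k, k ∈ n → ¬ Φ k) ?_
  · exact ⟨this.1.1, this.1.2, this.2⟩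
  · refine ⟨m, ⟨⟨hm, h1⟩, h2⟩, fun y hy => ?_⟩
    rcases nat_tri hm hy.1.1 with h3 | h3 | h3
    · exact (hy.2 m h3 h1).elim
    · exact h3.symm
    · exact (h2 y h3 hy.1.2).elim

theorem b5_dbl_mu {Γ : Type v} [Ctx M Γ] {Φ : Γ → M → Prop}
    (hΦ : Dbl M (fun z : Γ × M => Φ z.1 z.2)) : Dbl M (fun γ => b5_mu (Φ γ)) := by
  refine dbl_iota ?_
  have : Dbl M (fun z : (Γ × M) × M => Φ z.1.1 z.2) :=
    Dbl.comp (f := fun z : (Γ × M) × M => (z.1.1, z.2)) (g := fun z : Γ × M => Φ z.1 z.2)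
      (by fun_prop) hΦ
  fun_prop

/-! ### Selections from relations -/

theorem b5_roth_rel {T X : M} (hX : Roth T X) (hne : ∃ x, x ∈ X) {Q : M → M → Prop}
    (hQ : Dbl M (fun z : M × M => Q z.1 z.2))
    (h : ∀ n, n ∈ (omega : M) → ∀ x, x ∈ X → ∃ U, U ∈ T ∧ x ∈ U ∧ Q n U) :
    ∃ g : M → M, Dbl M g ∧ (∀ n, n ∈ (omega : M) → g n ∈ T ∧ Q n (g n)) ∧
      ∀ x, x ∈ X → ∃ n, n ∈ (omega : M) ∧ x ∈ g n := by
  have hQ' : ∀ n, Dbl M (fun U => Q n U) := fun n =>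
    Dbl.comp (f := fun U : M => (n, U)) (g := fun z : M × M => Q z.1 z.2) (by fun_prop) hQ
  have hsm : ∀ n, Small (fun U => U ∈ T ∧ Q n U) := fun n => small_sep (hQ' n) T
  have hc : Dbl M (fun n => comp (fun U => U ∈ T ∧ Q n U)) := dbl_comp hsm (by fun_prop)
  obtain ⟨g, hg, h1, h2⟩ := hX.sel hc (by
    intro n hn
    refine ⟨?_, fun U hU => ((mem_comp (hsm n)).1 hU).1, fun x hx => ?_⟩
    · obtain ⟨x, hx⟩ := hne
      obtain ⟨U, hU, _, hU'⟩ := h n hn x hx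
      exact ⟨U, (mem_comp (hsm n)).2 ⟨hU, hU'⟩⟩
    · obtain ⟨U, hU, hxU, hU'⟩ := h n hn x hx
      exact ⟨U, (mem_comp (hsm n)).2 ⟨hU, hU'⟩, hxU⟩)
  exact ⟨g, hg, fun n hn => (mem_comp (hsm n)).1 (h1 n hn).1, h2⟩

/-- Step 0: infinitely often -/
theorem b5_roth_inf {T X : M} (hX : Roth T X) (hne : ∃ x, x ∈ X) {Q : M → M → Prop}
    (hQ : Dbl M (fun z : M × M => Q z.1 z.2))
    (h : ∀ n, n ∈ (omega : M) → ∀ x, x ∈ X → ∃ U, U ∈ T ∧ x ∈ U ∧ Q n U) :
    ∃ g : M → M, Dbl M g ∧ (∀ n, n ∈ (omega : M) → g n ∈ T ∧ Q n (g n)) ∧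
      ∀ x, x ∈ X → ∀ k, k ∈ (omega : M) → ∃ n, n ∈ (omega : M) ∧ ¬ n ∈ k ∧ x ∈ g n := by
  obtain ⟨J, hJ, hJ1, hJ2⟩ := (hessenberg (infOrd_omega (M := M))).exists_fun
  have hsel : ∀ r, r ∈ (omega : M) → ∃ G, G ∈ power (prod (omega : M) T) ∧
      ((∀ m, m ∈ (omega : M) → fapp G m ∈ T ∧ Q (J (opair r m)) (fapp G m)) ∧
        ∀ x, x ∈ X → ∃ m, m ∈ (omega : M) ∧ x ∈ fapp G m) := by
    intro r hr
    obtain ⟨g, hg, h1, h2⟩ := b5_roth_rel (Q := fun m U => Q (J (opair r m)) U) hX hne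
      (by fun_prop) (fun m hm x hx => h _ (hJ1 _ (opair_mem_prod.2 ⟨hr, hm⟩)) x hx)
    refine ⟨graph g omega, ?_, ?_, ?_⟩
    · rw [mem_power]
      intro z hz
      obtain ⟨m, hm, rfl⟩ := (mem_graph hg).1 hz
      exact opair_mem_prod.2 ⟨hm, (h1 m hm).1⟩
    · intro m hm
      rw [fapp_graph hg hm]
      exact h1 m hm
    · intro x hx
      obtain ⟨m, hm, hxm⟩ := h2 x hx
      exact ⟨m, hm, by rw [fapp_graph hg hm]; exact hxm⟩
  obtain ⟨φ, hφ, hφ'⟩ := choice_fun (M := M) (a := omega) (b := power (prod (omega : M) T))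
    (R := fun r G => (∀ m, m ∈ (omega : M) → fapp G m ∈ T ∧ Q (J (opair r m)) (fapp G m)) ∧
        ∀ x, x ∈ X → ∃ m, m ∈ (omega : M) ∧ x ∈ fapp G m) (by fun_prop) hsel
  obtain ⟨g, hg, hg'⟩ := choice_fun (M := M) (a := omega) (b := T)
    (R := fun n y => Q n y ∧ ∀ r, r ∈ (omega : M) → ∀ m, m ∈ (omega : M) → J (opair r m) = n →
      y = fapp (φ r) m) (by fun_prop) (by
    intro n hn
    by_cases hex : ∃ r, r ∈ (omega : M) ∧ ∃ m, m ∈ (omega : M) ∧ J (opair r m) = n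
    · obtain ⟨r, hr, m, hm, rfl⟩ := hex
      obtain ⟨_, h1, _⟩ := hφ' r hr
      refine ⟨fapp (φ r) m, (h1 m hm).1, (h1 m hm).2, ?_⟩
      intro r' hr' m' hm' he
      have := hJ2 _ (opair_mem_prod.2 ⟨hr', hm'⟩) _ (opair_mem_prod.2 ⟨hr, hm⟩) he
      obtain ⟨rfl, rfl⟩ := opair_inj.1 this
      rfl
    · obtain ⟨x, hx⟩ := hne
      obtain ⟨U, hU, _, hU'⟩ := h n hn x hx
      exact ⟨U, hU, hU', fun r hr m hm he => (hex ⟨r, hr, m, hm, he⟩).elim⟩)
  refine ⟨g, hg, fun n hn => ⟨(hg' n hn).1, (hg' n hn).2.1⟩, ?_⟩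
  intro x hx k hk
  by_contra hcon
  push Not at hcon
  obtain ⟨μ, hμ, hμ'⟩ := choice_fun (M := M) (a := omega) (b := omega)
    (R := fun r m => x ∈ fapp (φ r) m) (by fun_prop) (fun r hr => (hφ' r hr).2.2 x hx)
  refine not_inj_omega hk (Inj.of_fun (φ := fun r => J (opair r (μ r))) (by fun_prop) ?_ ?_)
  · intro r hr
    obtain ⟨h1, h2⟩ := hμ' r hr
    have hJn := hJ1 _ (opair_mem_prod.2 ⟨hr, h1⟩)
    by_contra h3
    refine hcon _ hJn h3 ?_
    rw [(hg' _ hJn).2.2 r hr (μ r) h1 rfl]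
    exact h2
  · intro r hr r' hr' he
    have := hJ2 _ (opair_mem_prod.2 ⟨hr, (hμ' r hr).1⟩) _ (opair_mem_prod.2 ⟨hr', (hμ' r' hr').1⟩) he
    exact (opair_inj.1 this).1

end ST

end Pool.Agent.Lib_helper27
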