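import Pool.Agent.Lib_helper13.RB.B5a

/-!
# The game lemma, part 2
-/

set_option linter.unusedSectionVars false
set_option linter.unusedVariables false

namespace Pool.Agent.Lib_helper27

universe u v w v'

open Fml

namespace ST

variable {M : Type u} [SetStr M] [ZFC M]

/-- Step 2: partial covers -/
theorem b5_partial {T X : M} (hT : InterCl T) (hX : Roth T X) (hne : ∃ x, x ∈ X)
    {Q : M → M → Prop} (hQ : Dbl M (fun z : M × M => Q z.1 z.2))
    (hmono : ∀ n U U', Q n U → U' ∈ T → (∀ x, x ∈ U' → x ∈ U) → Q n U')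
    (h : ∀ x, x ∈ X → ∀ k, k ∈ (omega : M) → ∃ n, n ∈ (omega : M) ∧ ¬ n ∈ k ∧
      ∃ U, U ∈ T ∧ x ∈ U ∧ Q n U) :
    ∃ g : M → M, Dbl M g ∧ ∀ x, x ∈ X → ∀ k, k ∈ (omega : M) → ∃ n, n ∈ (omega : M) ∧
      ¬ n ∈ k ∧ x ∈ g n ∧ Q n (g n) := by
  classical
  -- the covers
  have hcov : ∀ x, x ∈ X → ∀ m, m ∈ (omega : M) → ∃ S U k, k ∈ (omega : M) ∧ U ∈ T ∧ x ∈ U ∧
      (∀ a, a ∈ S → a ∈ k ∧ Q a U) ∧ Inj m S := by
    intro x hx m hm
    refine omega_induction (Φ := fun m => ∃ S U k, k ∈ (omega : M) ∧ U ∈ T ∧ x ∈ U ∧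
      (∀ a, a ∈ S → a ∈ k ∧ Q a U) ∧ Inj m S) (by fun_prop) ?_ ?_ hm
    · obtain ⟨n, hn, _, U, hU, hxU, _⟩ := h x hx empty empty_mem_omega
      exact ⟨empty, U, empty, empty_mem_omega, hU, hxU,
        fun a ha => (not_mem_empty a ha).elim, Inj.refl _⟩
    · rintro m hm ⟨S, U, k, hk, hU, hxU, hS, hinj⟩
      obtain ⟨n, hn, hnk, W, hW, hxW, hQW⟩ := h x hx k hk
      obtain ⟨V, hV, hV'⟩ := hT U W hU hW
      refine ⟨union S (upair n n), V, succ n, succ_mem_omega hn, hV, (hV' x).2 ⟨hxU, hxW⟩, ?_, ?_⟩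
      · intro a ha
        rw [mem_union, mem_upair, or_self] at ha
        rcases ha with ha | rfl
        · refine ⟨mem_succ.2 (Or.inl (b5_le_of hk hn hnk a (hS a ha).1)), ?_⟩
          exact hmono a U V (hS a ha).2 hV fun y hy => ((hV' y).1 hy).1
        · exact ⟨mem_succ.2 (Or.inr rfl), hmono a W V hQW hV fun y hy => ((hV' y).1 hy).2⟩
      · obtain ⟨φ, hφ, h1, h2⟩ := hinj.exists_fun
        have hnS : ¬ n ∈ S := fun hnS => hnk (hS n hnS).1
        refine Inj.of_fun (φ := fun i => if i ∈ m then φ i else n)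
          (Dbl_ite (by fun_prop) (by fun_prop) (by fun_prop)) ?_ ?_
        · intro i hi
          by_cases him : i ∈ m
          · rw [if_pos him]
            exact mem_union.2 (Or.inl (h1 i him))
          · rw [if_neg him]
            exact mem_union.2 (Or.inr (by simp))
        · intro i hi i' hi' he
          by_cases him : i ∈ m
          · by_cases him' : i' ∈ m
            · rw [if_pos him, if_pos him'] at he
              exact h2 i him i' him' he
            · rw [if_pos him, if_neg him'] at he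
              exact (hnS (he ▸ h1 i him)).elim
          · by_cases him' : i' ∈ m
            · rw [if_neg him, if_pos him'] at he
              exact (hnS (he ▸ h1 i' him')).elim
            · rcases mem_succ.1 hi with h3 | h3
              · exact (him h3).elim
              · rcases mem_succ.1 hi' with h4 | h4
                · exact (him' h4).elim
                · exact h3.trans h4.symm
  obtain ⟨g, hg, hg1, hg2⟩ := b5_roth_inf (Q := fun m U => ∃ S, (∀ a, a ∈ S → a ∈ (omega : M) ∧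
      Q a U) ∧ Inj (succ m) S) hX hne (by fun_prop) (by
    intro m hm x hx
    obtain ⟨S, U, k, hk, hU, hxU, hS, hinj⟩ := hcov x hx (succ m) (succ_mem_omega hm)
    exact ⟨U, hU, hxU, S, fun a ha => ⟨mem_omega_trans hk (hS a ha).1, (hS a ha).2⟩, hinj⟩)
  -- choose the sets of indices
  obtain ⟨σ, hσ, hσ'⟩ := choice_fun (M := M) (a := omega) (b := power (omega : M))
    (R := fun m S => (∀ a, a ∈ S → Q a (g m)) ∧ Inj (succ m) S) (by fun_prop) (by
      intro m hm
      obtain ⟨_, S, hS, hinj⟩ := hg1 m hm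
      exact ⟨S, mem_power.2 fun a ha => (hS a ha).1, fun a ha => (hS a ha).2, hinj⟩)
  -- greedy choice
  let N' : M → M → M := fun m H => b5_mu (fun a => a ∈ σ m ∧ ¬ a ∈ H)
  have hN' : Dbl M (fun z : M × M => N' z.1 z.2) :=
    b5_dbl_mu (Φ := fun (z : M × M) a => a ∈ σ z.1 ∧ ¬ a ∈ z.2) (by fun_prop)
  obtain ⟨F, hF, hF0, hF1⟩ := omega_rec (H := fun m H => union H (upair (N' m H) (N' m H)))
    (by fun_prop) empty
  have hNd : Dbl M (fun m => N' m (F m)) := by fun_prop
  have hspec : ∀ m, m ∈ (omega : M) → Inj (F m) m → N' m (F m) ∈ (omega : M) ∧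
      N' m (F m) ∈ σ m ∧ ¬ N' m (F m) ∈ F m := by
    intro m hm hinj
    have hex : ∃ a, a ∈ σ m ∧ ¬ a ∈ F m := by
      by_contra hcon
      push Not at hcon
      exact b5_not_inj_succ hm (((hσ' m hm).2.2.trans (Inj.of_subset hcon)).trans hinj)
    obtain ⟨a, ha, ha'⟩ := hex
    have := b5_mu_spec (Φ := fun a => a ∈ σ m ∧ ¬ a ∈ F m) (by fun_prop)
      (mem_power.1 (hσ' m hm).1 a ha) ⟨ha, ha'⟩
    exact ⟨this.1, this.2.1.1, this.2.1.2⟩
  have hinj : ∀ m, m ∈ (omega : M) → Inj (F m) m := by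
    intro m hm
    refine omega_induction (Φ := fun m => Inj (F m) m) (by fun_prop) ?_ ?_ hm
    · rw [hF0]; exact Inj.refl _
    · intro m hm ih
      rw [hF1 m hm]
      obtain ⟨φ, hφ, h1, h2⟩ := ih.exists_fun
      refine Inj.of_fun (φ := fun i => if i ∈ F m then φ i else m)
        (Dbl_ite (by fun_prop) (by fun_prop) (by fun_prop)) ?_ ?_
      · intro i hi
        by_cases him : i ∈ F m
        · rw [if_pos him]
          exact mem_succ.2 (Or.inl (h1 i him))
        · rw [if_neg him]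
          exact mem_succ.2 (Or.inr rfl)
      · intro i hi i' hi' he
        by_cases him : i ∈ F m
        · by_cases him' : i' ∈ F m
          · rw [if_pos him, if_pos him'] at he
            exact h2 i him i' him' he
          · rw [if_pos him, if_neg him'] at he
            exact (mem_irrefl m (by have := h1 i him; rwa [he] at this)).elim
        · by_cases him' : i' ∈ F m
          · rw [if_neg him, if_pos him'] at he
            exact (mem_irrefl m (by have := h1 i' him'; rwa [← he] at this)).elim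
          · have h3 : i = N' m (F m) := by
              rcases mem_union.1 hi with h3 | h3
              · exact (him h3).elim
              · simpa using h3
            have h4 : i' = N' m (F m) := by
              rcases mem_union.1 hi' with h4 | h4
              · exact (him' h4).elim
              · simpa using h4
            exact h3.trans h4.symm
  have hNmem : ∀ m, m ∈ (omega : M) → ∀ i, i ∈ m → N' i (F i) ∈ F m := by
    intro m hm
    refine omega_induction (Φ := fun m => ∀ i, i ∈ m → N' i (F i) ∈ F m) (by fun_prop) ?_ ?_ hm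
    · exact fun i hi => (not_mem_empty i hi).elim
    · intro m hm ih i hi
      rw [hF1 m hm, mem_union]
      rcases mem_succ.1 hi with hi | rfl
      · exact Or.inl (ih i hi)
      · exact Or.inr (by simp)
  have hNinj : ∀ m, m ∈ (omega : M) → ∀ m', m' ∈ (omega : M) → N' m (F m) = N' m' (F m') →
      m = m' := by
    intro m hm m' hm' he
    rcases nat_tri hm hm' with h1 | h1 | h1
    · exact ((hspec m' hm' (hinj m' hm')).2.2 (he ▸ hNmem m' hm' m h1)).elim
    · exact h1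
    · exact ((hspec m hm (hinj m hm)).2.2 (he ▸ hNmem m hm m' h1)).elim
  -- the selection
  obtain ⟨g', hg', hg''⟩ := choice_fun (M := M) (a := omega) (b := T)
    (R := fun n y => ∀ m, m ∈ (omega : M) → N' m (F m) = n → y = g m) (by fun_prop) (by
    intro n hn
    by_cases hex : ∃ m, m ∈ (omega : M) ∧ N' m (F m) = n
    · obtain ⟨m, hm, rfl⟩ := hex
      exact ⟨g m, (hg1 m hm).1, fun m' hm' he => by rw [hNinj m' hm' m hm he]⟩
    · exact ⟨g empty, (hg1 empty empty_mem_omega).1, fun m hm he => (hex ⟨m, hm, he⟩).elim⟩)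
  refine ⟨g', hg', ?_⟩
  intro x hx k hk
  obtain ⟨f, hf, hf'⟩ := choice_fun (M := M) (a := k) (b := omega)
    (R := fun i y => ∀ m, m ∈ (omega : M) → N' m (F m) = i → y = m) (by fun_prop) (by
    intro n hn
    by_cases hex : ∃ m, m ∈ (omega : M) ∧ N' m (F m) = n
    · obtain ⟨m, hm, rfl⟩ := hex
      exact ⟨m, hm, fun m' hm' he => (hNinj m' hm' m hm he).symm⟩
    · exact ⟨empty, empty_mem_omega, fun m hm he => (hex ⟨m, hm, he⟩).elim⟩)
  obtain ⟨b, hb, hb'⟩ := nat_bdd hf hk fun i hi => (hf' i hi).1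
  obtain ⟨m, hm, hmb, hxm⟩ := hg2 x hx b hb
  obtain ⟨h1, h2, h3⟩ := hspec m hm (hinj m hm)
  refine ⟨N' m (F m), h1, ?_, ?_, ?_⟩
  · intro h4
    have := hb' _ h4
    rw [(hf' _ h4).2 m hm rfl] at this
    exact hmb this
  · rw [(hg'' _ h1).2 m hm rfl]
    exact hxm
  · rw [(hg'' _ h1).2 m hm rfl]
    exact (hσ' m hm).2.1 _ h2

/-- Step 1: the growth function -/
theorem b5_growth {T X : M} (hT : InterCl T) (hX : Roth T X) (hne : ∃ x, x ∈ X)
    {E : M → M → M → Prop} (hE : Dbl M (fun z : (M × M) × M => E z.1.1 z.1.2 z.2))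
    (hmono : ∀ a b U U', E a b U → U' ∈ T → (∀ x, x ∈ U' → x ∈ U) → E a b U')
    (hanti : ∀ a a' b U, (∀ x, x ∈ a → x ∈ a') → a' ∈ (omega : M) → a ∈ (omega : M) →
      E a' b U → E a b U)
    (hmon : ∀ a b b' U, (∀ x, x ∈ b → x ∈ b') → E a b U → E a b' U)
    (hcov : ∀ x, x ∈ X → ∀ a, a ∈ (omega : M) → ∃ b, b ∈ (omega : M) ∧ ∃ U, U ∈ T ∧ x ∈ U ∧ E a b U)
    {θ : M → M} (hθ : Dbl M θ) (hθω : ∀ a, a ∈ (omega : M) → θ a ∈ (omega : M)) :
    ∃ z : M → M, Dbl M z ∧ (∀ n, n ∈ (omega : M) → z n ∈ (omega : M) ∧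
      ∀ y, y ∈ θ (z n) → y ∈ z (succ n)) ∧
      ∀ x, x ∈ X → ∀ k, k ∈ (omega : M) → ∃ n, n ∈ (omega : M) ∧ ¬ n ∈ k ∧
        ∃ U, U ∈ T ∧ x ∈ U ∧ E (z n) (z (succ n)) U := by
  have hEdbl : ∀ {Γ : Type u} [Ctx M Γ] {f1 f2 f3 : Γ → M}, Dbl M f1 → Dbl M f2 → Dbl M f3 →
      Dbl M (fun γ => E (f1 γ) (f2 γ) (f3 γ)) := fun h1 h2 h3 =>
    Dbl.comp (f := fun γ => ((_, _), _)) (g := fun z : (M × M) × M => E z.1.1 z.1.2 z.2)
      ((h1.mk h2).mk h3) hE
  have hQd : Dbl M (fun z : M × M => ∃ b, b ∈ (omega : M) ∧ ∃ d, fapp d empty = z.1 ∧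
      (∀ i, i ∈ succ z.1 → fapp d i ∈ b) ∧ ∀ i, i ∈ z.1 →
        E (fapp d i) (fapp d (succ i)) z.2) := by
    have : Dbl M (fun w : (((M × M) × M) × M) × M => E (fapp w.1.2 w.2) (fapp w.1.2 (succ w.2))
      w.1.1.1.2) := hEdbl (by fun_prop) (by fun_prop) (by fun_prop)
    fun_prop
  obtain ⟨g, hg, hg1, hg2⟩ := b5_roth_inf (Q := fun n U => ∃ b, b ∈ (omega : M) ∧
      ∃ d, fapp d empty = n ∧ (∀ i, i ∈ succ n → fapp d i ∈ b) ∧ ∀ i, i ∈ n →
        E (fapp d i) (fapp d (succ i)) U) hX hne hQd (by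
    intro n hn x hx
    -- the least bound
    let γ : M → M := fun a => b5_mu (fun b => ∃ U, U ∈ T ∧ x ∈ U ∧ E a b U)
    have hγ : Dbl M γ := by
      refine b5_dbl_mu (Φ := fun a b => ∃ U, U ∈ T ∧ x ∈ U ∧ E a b U) ?_
      have : Dbl M (fun w : (M × M) × M => E w.1.1 w.1.2 w.2) := hE
      fun_prop
    have hγ' : ∀ a, a ∈ (omega : M) → γ a ∈ (omega : M) ∧ ∃ U, U ∈ T ∧ x ∈ U ∧ E a (γ a) U := by
      intro a ha
      obtain ⟨b, hb, hb'⟩ := hcov x hx a ha
      have hd : Dbl M (fun b => ∃ U, U ∈ T ∧ x ∈ U ∧ E a b U) := by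
        have : Dbl M (fun w : M × M => E a w.1 w.2) :=
          hEdbl (by fun_prop) (by fun_prop) (by fun_prop)
        fun_prop
      have := b5_mu_spec hd hb hb'
      exact ⟨this.1, this.2.1⟩
    obtain ⟨d, hd, hd0, hd1⟩ := omega_rec (H := fun _ y => γ y) (by fun_prop) n
    have hdω : ∀ i, i ∈ (omega : M) → d i ∈ (omega : M) := by
      intro i hi
      refine omega_induction (Φ := fun i => d i ∈ (omega : M)) (by fun_prop) ?_ ?_ hi
      · rw [hd0]; exact hn
      · intro i hi ih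
        rw [hd1 i hi]
        exact (hγ' _ ih).1
    obtain ⟨O, hO, hO'⟩ := choice_fun (M := M) (a := omega) (b := T)
      (R := fun i U => x ∈ U ∧ E (d i) (d (succ i)) U) (by
        have : Dbl M (fun w : M × M => E (d w.1) (d (succ w.1)) w.2) :=
          hEdbl (by fun_prop) (by fun_prop) (by fun_prop)
        fun_prop) (by
        intro i hi
        obtain ⟨_, U, hU, hxU, hEU⟩ := hγ' _ (hdω i hi)
        exact ⟨U, hU, hxU, by rw [hd1 i hi]; exact hEU⟩)
    obtain ⟨b, hb, hb'⟩ := nat_bdd hd (succ_mem_omega hn)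
      fun i hi => hdω i (mem_omega_trans (succ_mem_omega hn) hi)
    obtain ⟨U, hU, hxU, hU'⟩ := fin_inter hT hO (hO' empty empty_mem_omega).1
      (hO' empty empty_mem_omega).2.1 hn fun i hi =>
        ⟨(hO' i (mem_omega_trans hn hi)).1, (hO' i (mem_omega_trans hn hi)).2.1⟩
    refine ⟨U, hU, hxU, b, hb, graph d omega, ?_, ?_, ?_⟩
    · rw [fapp_graph hd empty_mem_omega, hd0]
    · intro i hi
      rw [fapp_graph hd (mem_omega_trans (succ_mem_omega hn) hi)]
      exact hb' i hi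
    · intro i hi
      have hiω := mem_omega_trans hn hi
      rw [fapp_graph hd hiω, fapp_graph hd (succ_mem_omega hiω)]
      exact hmono _ _ _ _ (hO' i hiω).2.2 hU (hU' i hi))
  obtain ⟨ψ, hψ, hψ'⟩ := choice_fun (M := M) (a := omega) (b := omega)
    (R := fun n b => ∃ d, fapp d empty = n ∧ (∀ i, i ∈ succ n → fapp d i ∈ b) ∧ ∀ i, i ∈ n →
        E (fapp d i) (fapp d (succ i)) (g n)) (by
      have : Dbl M (fun w : ((M × M) × M) × M => E (fapp w.1.2 w.2) (fapp w.1.2 (succ w.2))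
        (g w.1.1.1)) := hEdbl (by fun_prop) (by fun_prop) (by fun_prop)
      fun_prop) (by
      intro n hn
      obtain ⟨_, b, hb, hb'⟩ := hg1 n hn
      exact ⟨b, hb, hb'⟩)
  obtain ⟨z, hz, hz0, hz1⟩ := omega_rec (H := fun n y => union (ψ (succ n)) (θ y)) (by fun_prop)
    (ψ empty)
  have hzω : ∀ n, n ∈ (omega : M) → z n ∈ (omega : M) := by
    intro n hn
    refine omega_induction (Φ := fun i => z i ∈ (omega : M)) (by fun_prop) ?_ ?_ hn
    · rw [hz0]; exact (hψ' _ empty_mem_omega).1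
    · intro i hi ih
      rw [hz1 i hi]
      exact b5_union (hψ' _ (succ_mem_omega hi)).1 (hθω _ ih)
  have hψz : ∀ n, n ∈ (omega : M) → ∀ y, y ∈ ψ n → y ∈ z n := by
    intro n hn y hy
    rcases nat_cases hn with rfl | ⟨m, hm, rfl⟩
    · rw [hz0]; exact hy
    · rw [hz1 m hm]
      exact mem_union.2 (Or.inl hy)
  refine ⟨z, hz, fun n hn => ⟨hzω n hn, fun y hy => by
    rw [hz1 n hn]; exact mem_union.2 (Or.inr hy)⟩, ?_⟩
  intro x hx k hk
  by_contra hcon
  push Not at hcon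
  obtain ⟨n, hn, hnk, hxn⟩ := hg2 x hx (union k (z k)) (b5_union hk (hzω k hk))
  rw [mem_union, not_or] at hnk
  obtain ⟨hb, d, hd0, hd1, hd2⟩ := hψ' n hn
  have hdω : ∀ i, i ∈ succ n → fapp d i ∈ (omega : M) := fun i hi =>
    mem_omega_trans hb (hd1 i hi)
  have key : ∀ m, m ∈ (omega : M) → ¬ m ∈ k → (¬ n ∈ m → ∃ i, i ∈ succ m ∧
      ∀ y, y ∈ z m → y ∈ fapp d i) := by
    refine b5_ind_from (Φ := fun m => ¬ n ∈ m → ∃ i, i ∈ succ m ∧
      ∀ y, y ∈ z m → y ∈ fapp d i) (by fun_prop) hk ?_ ?_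
    · intro _
      refine ⟨empty, b5_zero_mem (succ_mem_omega hk) (mem_succ.2 (Or.inr rfl)), ?_⟩
      rw [hd0]
      exact b5_le_of (hzω k hk) hn hnk.2
    · intro m hm hmk ih hnm
      -- `m ∈ n`
      have hmn : m ∈ n := by
        rcases nat_tri hm hn with h1 | h1 | h1
        · exact h1
        · exact (hnm (h1 ▸ mem_succ.2 (Or.inr rfl))).elim
        · exact (hnm (mem_succ.2 (Or.inl h1))).elim
      obtain ⟨i, hi, hi'⟩ := ih (mem_asymm hmn)
      have hin : i ∈ n := by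
        rcases mem_succ.1 hi with h1 | rfl
        · exact nat_trans hn hmn h1
        · exact hmn
      have hsi : succ i ∈ succ n := succ_mem_succ hn hin
      refine ⟨succ i, succ_mem_succ (succ_mem_omega hm) hi, ?_⟩
      rcases b5_le_or (hzω _ (succ_mem_omega hm)) (hdω _ hsi) with h1 | h1
      · exact h1
      · exfalso
        refine hcon m hm hmk (g n) (hg1 n hn).1 hxn ?_
        refine hmon _ (fapp d (succ i)) _ _ ?_ (hanti _ (fapp d i) _ _ hi'
          (hdω i (mem_succ.2 (Or.inl hin))) (hzω m hm) (hd2 i hin))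
        exact fun y hy => nat_trans (hzω _ (succ_mem_omega hm)) h1 hy
  obtain ⟨i, hi, hi'⟩ := key n hn hnk.1 (mem_irrefl n)
  have h1 : fapp d i ∈ z n := hψz n hn _ (hd1 i hi)
  exact mem_irrefl _ (hi' _ h1)

end ST

end Pool.Agent.Lib_helper27
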