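import Pool.Agent.Lib_helper13.RB.B5

/-!
# The union of a family of Rothberger subspaces
-/

set_option linter.unusedSectionVars false
set_option linter.unusedVariables false

namespace Pool.Agent.Lib_helper27

universe u v w v'

open Fml

namespace ST

variable {M : Type u} [SetStr M] [ZFC M]

/-- Lindelöf: every sequence of open covers has countable refinements -/
theorem b7_lindelof {T u : M} (hB : SecM T) {c : M → M} (hc : Dbl M c)
    (h : ∀ n, n ∈ (omega : M) → OpenCover T u (c n)) :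
    ∃ G : M → M, Dbl M G ∧ (∀ n, n ∈ (omega : M) → ∀ j, j ∈ (omega : M) →
      G (opair n j) ∈ T ∧ G (opair n j) ∈ c n) ∧
      ∀ x, x ∈ u → ∀ n, n ∈ (omega : M) → ∃ j, j ∈ (omega : M) ∧ x ∈ G (opair n j) := by
  obtain ⟨B, hB1, hB2, hB3⟩ := hB
  obtain ⟨e, he, he1, he2⟩ := hB2.exists_fun
  obtain ⟨G, hG, hG'⟩ := choice_fun (M := M) (a := prod omega omega) (b := T)
    (R := fun z U => U ∈ c (fstp z) ∧ ∀ b, b ∈ B → e b = sndp z →
      (∃ W, W ∈ c (fstp z) ∧ ∀ y, y ∈ b → y ∈ W) → ∀ y, y ∈ b → y ∈ U) (by fun_prop) (by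
    intro z hz
    obtain ⟨n, hn, j, hj, rfl⟩ := mem_prod.1 hz
    simp only [fstp_opair, sndp_opair]
    by_cases hex : ∃ b, b ∈ B ∧ e b = j ∧ ∃ W, W ∈ c n ∧ ∀ y, y ∈ b → y ∈ W
    · obtain ⟨b, hb, hbj, W, hW, hbW⟩ := hex
      refine ⟨W, (h n hn).2.1 W hW, hW, ?_⟩
      intro b' hb' hb'j _ y hy
      have : b' = b := he2 b' hb' b hb (hb'j.trans hbj.symm)
      subst this
      exact hbW y hy
    · obtain ⟨W, hW⟩ := (h n hn).1
      exact ⟨W, (h n hn).2.1 W hW, hW, fun b hb hbj hW' => (hex ⟨b, hb, hbj, hW'⟩).elim⟩)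
  refine ⟨G, hG, ?_, ?_⟩
  · intro n hn j hj
    have := hG' _ (opair_mem_prod.2 ⟨hn, hj⟩)
    simp only [fstp_opair, sndp_opair] at this
    exact ⟨this.1, this.2.1⟩
  · intro x hx n hn
    obtain ⟨W, hW, hxW⟩ := (h n hn).2.2 x hx
    obtain ⟨b, hb, hxb, hbW⟩ := hB3 W ((h n hn).2.1 W hW) x hxW
    refine ⟨e b, he1 b hb, ?_⟩
    have := hG' _ (opair_mem_prod.2 ⟨hn, he1 b hb⟩)
    simp only [fstp_opair, sndp_opair] at this
    exact this.2.2 b hb rfl ⟨W, hW, hbW⟩ x hxb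

theorem b7_fapp_tau {K τ A r : M} (hP : PredSys K τ A r) {ν j : M} (hν : ν ∈ (omega : M))
    (hj : j ∈ (omega : M)) : fapp τ (opair ν j) ∈ (omega : M) ∧
      ∀ ν', opair (opair ν j) ν' ∈ τ → ν' = fapp τ (opair ν j) := by
  obtain ⟨ν', h1, h2, h3⟩ := hP.tau ν hν j hj
  have : fapp τ (opair ν j) = ν' := iota_eq h2 h3
  rw [this]
  exact ⟨h1, h3⟩

/-- the game lemma for one Rothberger subspace -/
theorem b7_one {K τ A r : M} (hP : PredSys K τ A r) {T X : M} (hT : InterCl T) (hX : Roth T X)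
    {G : M → M} (hG : Dbl M G) (hGT : ∀ n, n ∈ (omega : M) → ∀ j, j ∈ (omega : M) →
      G (opair n j) ∈ T)
    (hGX : ∀ x, x ∈ X → ∀ n, n ∈ (omega : M) → ∃ j, j ∈ (omega : M) ∧ x ∈ G (opair n j)) :
    ∃ f, f ∈ power (prod (omega : M) omega) ∧ ∃ s U, (fapp s empty = r ∧
      (∀ l, l ∈ (omega : M) → fapp f l ∈ (omega : M) ∧ fapp s l ∈ (omega : M) ∧
        fapp s (succ l) = fapp τ (opair (fapp s l) (fapp f l)))) ∧
      ∀ x, x ∈ X → ∀ k, k ∈ (omega : M) → ∃ l, l ∈ (omega : M) ∧ ¬ l ∈ k ∧ x ∈ fapp U l ∧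
        ∀ y v, R4 A (fapp s l) (fapp f l) y v → ∀ x, x ∈ fapp U l → x ∈ G (opair y v) := by
  obtain ⟨f, s, U, hf, hs, hU, hs0, h1, h2⟩ := game_proof (T := T) (X := X)
    (D := fun ν j U => ∀ y v, R4 A ν j y v → ∀ x, x ∈ U → x ∈ G (opair y v)) hT hX
    (by fun_prop) (fun ν j U U' h _ hUU' y v hA x hx => h y v hA x (hUU' x hx))
    (by
      intro ν hν x hx
      let γ : M → M := fun y => b5_mu (fun v => x ∈ G (opair y v))
      have hγ : Dbl M γ := b5_dbl_mu (Φ := fun y v => x ∈ G (opair y v)) (by fun_prop)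
      have hγ' : ∀ y, y ∈ (omega : M) → γ y ∈ (omega : M) ∧ x ∈ G (opair y (γ y)) := by
        intro y hy
        obtain ⟨j, hj, hj'⟩ := hGX x hx y hy
        have := b5_mu_spec (Φ := fun v => x ∈ G (opair y v)) (by fun_prop) hj hj'
        exact ⟨this.1, this.2.1⟩
      obtain ⟨j, hj, hj'⟩ := hP.cover (graph γ omega) (by
        intro y hy
        exact ⟨γ y, (hγ' y hy).1, (opair_mem_graph hγ).2 ⟨hy, rfl⟩,
          fun v' hv' => ((opair_mem_graph hγ).1 hv').2.symm⟩) ν hν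
      obtain ⟨n, hn, hn'⟩ := hP.fin ν hν j hj
      obtain ⟨U, hU, hxU, hU'⟩ := fin_inter hT (O := fun y => G (opair y (γ y))) (by fun_prop)
        (hGT _ empty_mem_omega _ (hγ' _ empty_mem_omega).1) (hγ' _ empty_mem_omega).2 hn
        (fun i hi => ⟨hGT _ (mem_omega_trans hn hi) _ (hγ' _ (mem_omega_trans hn hi)).1,
          (hγ' _ (mem_omega_trans hn hi)).2⟩)
      refine ⟨j, hj, U, hU, hxU, ?_⟩
      intro y v hA x' hx'
      have h3 := hj' y v hA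
      have h4 := ((opair_mem_graph hγ).1 h3).2
      rw [← h4]
      exact hU' y (hn' y v hA).1 x' hx')
    (τ := fun ν j => fapp τ (opair ν j)) (by fun_prop)
    (fun ν j hν hj => (b7_fapp_tau hP hν hj).1) hP.root
  refine ⟨graph f omega, ?_, graph s omega, graph U omega, ⟨?_, ?_⟩, ?_⟩
  · rw [mem_power]
    intro z hz
    obtain ⟨m, hm, rfl⟩ := (mem_graph hf).1 hz
    exact opair_mem_prod.2 ⟨hm, (h1 m hm).1⟩
  · rw [fapp_graph hs empty_mem_omega, hs0]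
  · intro l hl
    rw [fapp_graph hs hl, fapp_graph hf hl, fapp_graph hs (succ_mem_omega hl)]
    exact h1 l hl
  · intro x hx k hk
    obtain ⟨l, hl, hlk, hxl, hDl⟩ := h2 x hx k hk
    refine ⟨l, hl, hlk, ?_, ?_⟩
    · rw [fapp_graph hU hl]
      exact hxl
    · rw [fapp_graph hU hl, fapp_graph hs hl, fapp_graph hf hl]
      exact hDl

/-- B7: the union of a family of Rothberger subspaces -/
theorem roth_union_proof {K τ A r : M} (hP : PredSys K τ A r) {Y T : M} (hT : TopM Y T)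
    (hB : SecM T) {F u : M} (hF : ∀ X, X ∈ F → (∀ x, x ∈ X → x ∈ Y) ∧ Roth T X) (hFK : Inj F K)
    (hu : ∀ x, x ∈ u ↔ ∃ X, X ∈ F ∧ x ∈ X) : Roth T u := by
  rintro Q c ⟨hc, hcov⟩
  have hcov' : ∀ n, n ∈ (omega : M) → OpenCover T u (fapp c n) := fun n hn =>
    hcov n _ (hc.opair_fapp hn)
  by_cases hne : ∃ X₀, X₀ ∈ F
  swap
  · obtain ⟨g, hg, hg'⟩ := choice_fun (M := M) (a := omega) (b := T)
      (R := fun n y => y ∈ fapp c n) (by fun_prop) (by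
        intro n hn
        obtain ⟨W, hW⟩ := (hcov' n hn).1
        exact ⟨W, (hcov' n hn).2.1 W hW, hW⟩)
    refine ⟨graph g omega, isFn_graph hg fun x hx => (hg' x hx).1, ?_, ?_⟩
    · rintro n v w ⟨h1, h2⟩
      obtain ⟨hn, rfl⟩ := (opair_mem_graph hg).1 h2
      rw [← hc.fapp_eq h1]
      exact (hg' n hn).2
    · intro x hx
      obtain ⟨X, hX, _⟩ := (hu x).1 hx
      exact (hne ⟨X, hX⟩).elim
  obtain ⟨X₀, hX₀⟩ := hne
  obtain ⟨G, hG, hG1, hG2⟩ := b7_lindelof hB (c := fapp c) (by fun_prop) hcov'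
  -- enumeration of the family
  obtain ⟨e, he, he1, he2⟩ := hFK.exists_fun
  obtain ⟨Ξ, hΞ, hΞ'⟩ := choice_fun (M := M) (a := K) (b := F)
    (R := fun ξ X => ∀ X', X' ∈ F → e X' = ξ → X = X') (by fun_prop) (by
      intro ξ hξ
      by_cases hex : ∃ X, X ∈ F ∧ e X = ξ
      · obtain ⟨X, hX, hXξ⟩ := hex
        exact ⟨X, hX, fun X' hX' he' => he2 X hX X' hX' (hXξ.trans he'.symm)⟩
      · exact ⟨X₀, hX₀, fun X' hX' he' => (hex ⟨X', hX', he'⟩).elim⟩)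
  obtain ⟨φ, hφ, hφ'⟩ := choice_fun (M := M) (a := K) (b := power (prod (omega : M) omega))
    (R := fun ξ f => ∃ s U, (fapp s empty = r ∧
      (∀ l, l ∈ (omega : M) → fapp f l ∈ (omega : M) ∧ fapp s l ∈ (omega : M) ∧
        fapp s (succ l) = fapp τ (opair (fapp s l) (fapp f l)))) ∧
      ∀ x, x ∈ Ξ ξ → ∀ k, k ∈ (omega : M) → ∃ l, l ∈ (omega : M) ∧ ¬ l ∈ k ∧ x ∈ fapp U l ∧
        ∀ y v, R4 A (fapp s l) (fapp f l) y v → ∀ x, x ∈ fapp U l → x ∈ G (opair y v))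
    (by fun_prop) (by
      intro ξ hξ
      exact b7_one hP hT.inter (hF _ (hΞ' ξ hξ).1).2 hG (fun n hn j hj => (hG1 n hn j hj).1)
        fun x hx n hn => hG2 x ((hu x).2 ⟨_, (hΞ' ξ hξ).1, hx⟩) n hn)
  -- the moves
  have hΨ : Dbl M (fun z : M => fapp (φ (fstp z)) (sndp z)) := by fun_prop
  have hmΦ : ∀ ξ l j, opair (opair ξ l) j ∈ graph (fun z : M => fapp (φ (fstp z)) (sndp z))
      (prod K omega) ↔ (ξ ∈ K ∧ l ∈ (omega : M)) ∧ fapp (φ ξ) l = j := by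
    intro ξ l j
    rw [opair_mem_graph hΨ, opair_mem_prod, fstp_opair, sndp_opair]
  obtain ⟨p, hp, hp'⟩ := hP.pred (graph (fun z : M => fapp (φ (fstp z)) (sndp z))
    (prod K omega)) (by
    intro ξ hξ l hl
    obtain ⟨_, s, U, ⟨_, h1⟩, _⟩ := hφ' ξ hξ
    exact ⟨fapp (φ ξ) l, (h1 l hl).1, (hmΦ _ _ _).2 ⟨⟨hξ, hl⟩, rfl⟩,
      fun j' hj' => ((hmΦ _ _ _).1 hj').2.symm⟩)
  have hpω : ∀ y, y ∈ (omega : M) → fapp p y ∈ (omega : M) ∧ ∀ v, opair y v ∈ p →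
      fapp p y = v := by
    intro y hy
    obtain ⟨v, hv, h1, h2⟩ := hp y hy
    have : fapp p y = v := iota_eq h1 h2
    rw [this]
    exact ⟨hv, fun v' hv' => (h2 v' hv').symm⟩
  have hsel : Dbl M (fun n => G (opair n (fapp p n))) := by fun_prop
  refine ⟨graph (fun n => G (opair n (fapp p n))) omega,
    isFn_graph hsel fun n hn => (hG1 n hn _ (hpω n hn).1).1, ?_, ?_⟩
  · rintro n v w ⟨h1, h2⟩
    obtain ⟨hn, rfl⟩ := (opair_mem_graph hsel).1 h2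
    rw [← hc.fapp_eq h1]
    exact (hG1 n hn _ (hpω n hn).1).2
  · intro x hx
    obtain ⟨X, hX, hxX⟩ := (hu x).1 hx
    have hξ := he1 X hX
    have hXe : Ξ (e X) = X := (hΞ' _ hξ).2 X hX rfl
    obtain ⟨_, s, U, ⟨hs0, h1⟩, h2⟩ := hφ' _ hξ
    have hsd : Dbl M (fapp s) := by fun_prop
    obtain ⟨l₀, hl₀, h3⟩ := hp' _ hξ (graph (fapp s) omega) (by
      refine ⟨?_, (opair_mem_graph hsd).2 ⟨empty_mem_omega, hs0⟩, ?_⟩
      · intro l hl
        exact ⟨fapp s l, (h1 l hl).2.1, (opair_mem_graph hsd).2 ⟨hl, rfl⟩,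
          fun ν' hν' => ((opair_mem_graph hsd).1 hν').2.symm⟩
      · intro l hl ν j ν' hν hj hν'
        obtain ⟨_, rfl⟩ := (opair_mem_graph hsd).1 hν
        obtain ⟨_, rfl⟩ := (hmΦ _ _ _).1 hj
        refine (opair_mem_graph hsd).2 ⟨succ_mem_omega hl, ?_⟩
        rw [(h1 l hl).2.2]
        exact ((b7_fapp_tau hP (h1 l hl).2.1 (h1 l hl).1).2 ν' hν').symm)
    obtain ⟨l, hl, hll, hxl, hDl⟩ := h2 x (by rw [hXe]; exact hxX) l₀ hl₀
    obtain ⟨ν, j, y, v, h4, h5, h6, h7⟩ := h3 l hl hll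
    obtain ⟨_, rfl⟩ := (opair_mem_graph hsd).1 h4
    obtain ⟨_, rfl⟩ := (hmΦ _ _ _).1 h5
    obtain ⟨n, hn, hn'⟩ := hP.fin _ (h1 l hl).2.1 _ (h1 l hl).1
    have hy : y ∈ (omega : M) := mem_omega_trans hn (hn' y v h6).1
    refine ⟨y, hy, _, (opair_mem_graph hsel).2 ⟨hy, rfl⟩, ?_⟩
    show x ∈ G (opair y (fapp p y))
    rw [(hpω y hy).2 v h7]
    exact hDl y v h6 x hxl

end ST

end Pool.Agent.Lib_helper27
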